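import Pool.Agent.H29.LA.Targets

/-!
# Board `lar_modules`, row DSC: the discriminant
-/

set_option autoImplicit false

open Polynomial
open Pool.Agent.H29.LA

namespace Pool.Agent.H35.LA

/-- the discriminant of a monic polynomial is a resultant, up to sign -/
theorem discr_monic {R : Type} [CommRing R] [Nontrivial R] {f : R[X]} (hm : f.Monic)
    (hd : 0 < f.natDegree) :
    f.discr = (-1) ^ (f.natDegree * (f.natDegree - 1) / 2) *
      resultant f f.derivative f.natDegree (f.natDegree - 1) := by
  have h1 := resultant_deriv (natDegree_pos_iff_degree_pos.1 hd)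
  rw [hm.leadingCoeff, mul_one] at h1
  rw [h1, ← mul_assoc, ← pow_add, ← two_mul, pow_mul, neg_one_sq, one_pow, one_mul]

/-- base change -/
theorem discr_map {R S : Type} [CommRing R] [Nontrivial R] [CommRing S] [Nontrivial S]
    (φ : R →+* S) {f : R[X]} (hm : f.Monic) (hd : 0 < f.natDegree) :
    (f.map φ).discr = φ f.discr := by
  have h1 : (f.map φ).natDegree = f.natDegree := hm.natDegree_map φ
  rw [discr_monic (hm.map φ) (by rw [h1]; exact hd), discr_monic hm hd, h1, derivative_map,
    resultant_map_map, map_mul, map_pow, map_neg, map_one]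

/-- the discriminant of a separable polynomial -/
theorem discr_ne_zero_iff {K : Type} [Field K] {g : K[X]} (hm : g.Monic)
    (hd : 0 < g.natDegree) : g.discr ≠ 0 ↔ g.Separable := by
  have hle : g.derivative.natDegree ≤ g.natDegree - 1 := natDegree_derivative_le g
  obtain ⟨c, hc⟩ := Nat.exists_eq_add_of_le hle
  have h1 : resultant g g.derivative g.natDegree (g.natDegree - 1) =
      resultant g g.derivative := by
    rw [hc, resultant_add_right_deg _ _ _ _ _ le_rfl, hm.coeff_natDegree, one_pow, one_mul]
  rw [discr_monic hm hd, h1, Separable, ← isUnit_resultant_iff_isCoprime hm,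
    isUnit_iff_ne_zero]
  constructor
  · intro h
    exact right_ne_zero_of_mul h
  · intro h
    exact mul_ne_zero (pow_ne_zero _ (neg_ne_zero.2 one_ne_zero)) h

/-- the number of pairs -/
theorem card_pairs (m : ℕ) : ∑ i : Fin m, (Finset.Ioi i).card = m * (m - 1) / 2 := by
  have h1 : ∑ i : Fin m, (Finset.Ioi i).card = ∑ i ∈ Finset.range m, (m - 1 - i) := by
    rw [← Fin.sum_univ_eq_sum_range (fun i => m - 1 - i) m]
    exact Finset.sum_congr rfl fun i _ => Fin.card_Ioi i
  rw [h1, Finset.sum_range_reflect (fun i => i) m, Finset.sum_range_id]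

/-- the discriminant of a product of linear factors -/
theorem discr_prod {K : Type} [Field K] (m : ℕ) (hmp : 0 < m) (z : Fin m → K) (g : K[X])
    (hg : g = ∏ i, (X - C (z i))) :
    g.discr = ∏ i, ∏ j ∈ Finset.Ioi i, (z j - z i) ^ 2 := by
  classical
  have hm : g.Monic := by
    rw [hg]
    exact monic_prod_of_monic _ _ fun i _ => monic_X_sub_C _
  have hd : g.natDegree = m := by
    rw [hg, natDegree_prod_of_monic _ _ fun i _ => monic_X_sub_C _]
    simp
  have h1 : resultant g g.derivative g.natDegree (g.natDegree - 1) =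
      ∏ i, (g.derivative).eval (z i) := by
    have h2 := resultant_prod_left Finset.univ (fun i => X - C (z i)) g.derivative
      (g.natDegree - 1) (by simp) (natDegree_derivative_le g)
    rw [← hg] at h2
    rw [h2]
    refine Finset.prod_congr rfl fun i _ => ?_
    rw [natDegree_X_sub_C, resultant_X_sub_C_left _ _ _ (natDegree_derivative_le g)]
  have h2 : ∀ i, (g.derivative).eval (z i) =
      (∏ j ∈ Finset.Ioi i, (z i - z j)) * ∏ j ∈ Finset.Iio i, (z i - z j) := by
    intro i
    have h3 : g = Lagrange.nodal Finset.univ z := by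
      rw [hg]
      rfl
    rw [h3, Lagrange.eval_nodal_derivative_eval_node_eq (Finset.mem_univ i), Lagrange.nodal,
      eval_prod]
    simp only [eval_sub, eval_X, eval_C]
    rw [← Finset.prod_union]
    · refine Finset.prod_congr ?_ fun j _ => rfl
      ext j
      simp only [Finset.mem_erase, Finset.mem_univ, and_true, Finset.mem_union, Finset.mem_Ioi,
        Finset.mem_Iio]
      constructor
      · intro h
        rcases lt_or_gt_of_ne h with h | h
        · exact Or.inr h
        · exact Or.inl h
      · rintro (h | h)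
        · exact ne_of_gt h
        · exact ne_of_lt h
    · rw [Finset.disjoint_left]
      intro j h4 h5
      rw [Finset.mem_Ioi] at h4
      rw [Finset.mem_Iio] at h5
      exact lt_asymm h4 h5
  have h3 : ∏ i, ∏ j ∈ Finset.Iio i, (z i - z j) = ∏ i, ∏ j ∈ Finset.Ioi i, (z j - z i) := by
    refine Finset.prod_comm' ?_
    intro i j
    simp
  have h4 : ∏ i, ∏ j ∈ Finset.Ioi i, (z i - z j) =
      (-1) ^ (m * (m - 1) / 2) * ∏ i, ∏ j ∈ Finset.Ioi i, (z j - z i) := by
    rw [← card_pairs, ← Finset.prod_pow_eq_pow_sum, ← Finset.prod_mul_distrib]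
    refine Finset.prod_congr rfl fun i _ => ?_
    rw [← Finset.prod_const, ← Finset.prod_mul_distrib]
    refine Finset.prod_congr rfl fun j _ => ?_
    ring
  rw [discr_monic hm (by rw [hd]; exact hmp), h1, hd]
  simp only [h2]
  rw [Finset.prod_mul_distrib, h3, h4]
  have h5 : ∏ i, ∏ j ∈ Finset.Ioi i, (z j - z i) ^ 2 =
      (∏ i, ∏ j ∈ Finset.Ioi i, (z j - z i)) ^ 2 := by
    rw [← Finset.prod_pow]
    refine Finset.prod_congr rfl fun i _ => ?_
    rw [← Finset.prod_pow]
  rw [h5]
  have h6 : ((-1 : K) ^ (m * (m - 1) / 2)) * (-1) ^ (m * (m - 1) / 2) = 1 := by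
    rw [← pow_add, ← two_mul, pow_mul, neg_one_sq, one_pow]
  linear_combination (∏ i, ∏ j ∈ Finset.Ioi i, (z j - z i)) ^ 2 * h6

theorem pf_DSC : T_DSC := by
  refine ⟨?_, ?_⟩
  · intro K _ f hm hd
    have hev : ∀ x : K, f.discr.eval x = (fib f x).discr := by
      intro x
      exact (discr_map (evalRingHom x) hm hd).symm
    have hmf : ∀ x : K, (fib f x).Monic := fun x => hm.map _
    have hdf : ∀ x : K, (fib f x).natDegree = f.natDegree := fun x => hm.natDegree_map _
    refine ⟨fun x => ?_, fun x z hz => ?_⟩
    · rw [hev]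
      exact discr_ne_zero_iff (hmf x) (by rw [hdf]; exact hd)
    · rw [hev]
      exact discr_prod _ hd z _ hz
  · intro K L _ _ i f hm hd
    exact discr_map (mapRingHom i) hm hd

end Pool.Agent.H35.LA
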