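import Pool.Agent.H97.LA.Targets

/-! Module VALA: the values of the gates under the action. -/

set_option autoImplicit false

open Finset Pool.Agent.H60.SYM Pool.Agent.H42.XS Pool.Agent.H97.LA

namespace Pool.Agent.H35.LA

theorem val_some {I V : Type} {s t : ℕ} (C : LCirc I V s t) (φ : I → Bool) (g : Fin s) (i : I)
    (h : C.inp g = some i) : C.val φ g = C.bit (φ i) := by
  rw [LCirc.val]
  simp only [h]

theorem val_none {I V : Type} {s t : ℕ} (C : LCirc I V s t) (φ : I → Bool) (g : Fin s)
    (h : C.inp g = none) : C.val φ g =
      (C.op g).app {i : Fin t // C.own i = g} fun l i j => C.val φ (C.ch l i.1 j.1) := by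
  rw [LCirc.val]
  simp only [h]

theorem pf_VALA (hAPP : T_APP) : T_VALA := by
  intro n k s t V U C a b hA f hf φ g
  induction hm : (g : ℕ) using Nat.strong_induction_on generalizing g with
  | _ m ih =>
    cases h : C.inp g with
    | some D =>
      have h2 : C.inp (a f g) = some (exch f D) := by
        rw [hA.inp f hf g, h]
        rfl
      rw [val_some C _ g D h, val_some C _ (a f g) (exch f D) h2]
    | none =>
      have h2 : C.inp (a f g) = none := by
        rw [hA.inp f hf g, h]
        rfl
      rw [val_none C _ g h, val_none C _ (a f g) h2, hA.op f hf g]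
      have hσ : ∀ i : Fin t, C.own i = g ↔ C.own (b f i) = a f g := by
        intro i
        rw [hA.own f hf i]
        exact (a f).injective.eq_iff.symm
      symm
      refine (hAPP V (C.op g) {i : Fin t // C.own i = g} {i : Fin t // C.own i = a f g}).1
        (Equiv.subtypeEquiv (b f) hσ) _ _ ?_
      intro l i j
      have hij : C.own i.1 = C.own j.1 := i.2.trans j.2.symm
      have h3 : C.ch l (b f i.1) (b f j.1) = a f (C.ch l i.1 j.1) := hA.ch f hf l i.1 j.1 hij
      have h4 : ((C.ch l i.1 j.1 : Fin s) : ℕ) < m := by
        have h5 := C.acyclic l i.1 j.1 hij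
        rw [i.2] at h5
        rw [← hm]
        exact h5
      have h6 := ih _ h4 (C.ch l i.1 j.1) rfl
      show C.val φ (C.ch l (b f i.1) (b f j.1)) = _
      rw [h3, ← h6]

end Pool.Agent.H35.LA
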